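import Pool.Agent.Y577.EV.Stm

set_option autoImplicit false

/-!
EV3: the signed number of the invariant graphs without a member of the family is a value of the
functional `Lb`.
-/

namespace Pool.Agent.Y705.EV

open Finset Pool.Agent.H98R2.Ev Pool.Agent.TH410.KV
open Pool.Agent.Y577.EV

variable {𝓕 : Fam} {B : Type}

open Classical in
/-- the types of the blocks: complete if `R i` and without edges otherwise -/
noncomputable def tau (𝓕 : Fam) (c : B → ℕ) (R : B → Prop) (i : B) : TY 𝓕 :=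
  if R i then (J 2)^[c i] xi else xi

theorem bridge (c : B → ℕ) (G : SimpleGraph B) (R : B → Prop) :
    HH 𝓕 (gr c G R) ↔ Bad (tau 𝓕 c R) G := by
  classical
  constructor
  · rintro ⟨F, hF, ⟨f⟩⟩
    refine ⟨⟨F, hF⟩, fun x => (f x).1, fun v => ?_, fun x y hxy hne => ?_⟩
    · unfold tau
      by_cases hR : R v
      · rw [if_pos hR, mem_iter]
        refine ⟨fun x => if h : (f x).1 = v then h ▸ (f x).2 else 0, fun a => ?_⟩
        intro x hx y hy hxy
        simp only [mem_filter, mem_univ, true_and] at hx hy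
        obtain ⟨hx1, hx2⟩ := hx
        obtain ⟨hy1, hy2⟩ := hy
        rw [dif_pos hx1] at hx2
        rw [dif_pos hy1] at hy2
        have hfx : f x = ⟨v, a⟩ := by
          rw [← hx2]
          generalize f x = z at hx1 hx2
          obtain ⟨z1, z2⟩ := z
          subst hx1
          rfl
        have hfy : f y = ⟨v, a⟩ := by
          rw [← hy2]
          generalize f y = z at hy1 hy2
          obtain ⟨z1, z2⟩ := z
          subst hy1
          rfl
        have h := f.map_adj hxy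
        rw [hfx, hfy] at h
        exact (gr c G R).loopless.irrefl _ h
      · rw [if_neg hR]
        intro x hx y hy hxy
        simp only [mem_filter, mem_univ, true_and] at hx hy
        rcases f.map_adj hxy with h | ⟨_, _, h⟩
        · rw [hx, hy] at h
          exact G.loopless.irrefl _ h
        · rw [hx] at h
          exact hR h
    · rcases f.map_adj hxy with h | ⟨h, _, _⟩
      · exact h
      · exact absurd h hne
  · rintro ⟨⟨F, hF⟩, κ, h1, h2⟩
    have hcol : ∀ i, ∃ col : Fin F.1 → (Fin (c i) → ZMod 2), R i →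
        ∀ x y, κ x = i → κ y = i → F.2.Adj x y → col x ≠ col y := by
      intro i
      by_cases hR : R i
      · have h := h1 i
        unfold tau at h
        rw [if_pos hR, mem_iter] at h
        obtain ⟨col, hcol⟩ := h
        refine ⟨col, fun _ x y hx hy hxy hc => ?_⟩
        have h3 : _ ∈ (xi : TY 𝓕).1 ⟨F, hF⟩ := hcol (col x)
        exact h3 x (by simp [hx]) y (by simp [hy, hc]) hxy
      · exact ⟨fun _ => 0, fun h => absurd h hR⟩
    choose col hcol using hcol
    refine ⟨F, hF, ⟨⟨fun x => ⟨κ x, col (κ x) x⟩, ?_⟩⟩⟩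
    intro x y hxy
    by_cases h : κ x = κ y
    · by_cases hR : R (κ x)
      · refine Or.inr ⟨h, ?_, hR⟩
        intro heq
        have h4 := hcol (κ x) hR x y rfl h.symm hxy
        apply h4
        rw [Sigma.mk.injEq] at heq
        have h5 := heq.2
        have h6 : HEq (col (κ y) y) (col (κ x) y) := by rw [h]
        exact eq_of_heq (h5.trans h6)
      · exfalso
        have h3 := h1 (κ x)
        unfold tau at h3
        rw [if_neg hR] at h3
        have h4 : _ ∈ (xi : TY 𝓕).1 ⟨F, hF⟩ := h3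
        exact h4 x (by simp) y (by simp [h]) hxy
    · exact Or.inl (h2 x y hxy h)

/-- the set of the complete blocks -/
def RR (c : B → ℕ) (T : Finset {i // c i ≠ 0}) : B → Prop :=
  fun i => ∃ h : c i ≠ 0, (⟨i, h⟩ : {i // c i ≠ 0}) ∈ T

theorem smul_pow_neg {A : Type} [CommRing A] [Algebra (ZMod 2) A] (n : ℕ) (x : A) :
    ((-1 : ZMod 2) ^ n) • x = (-1) ^ n * x := by
  rw [Algebra.smul_def, map_pow, map_neg, map_one]

theorem prod_zz [Fintype B] [DecidableEq B] (𝓕 : Fam) (c : B → ℕ) :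
    ∏ i, zz 𝓕 (c i) = ∑ T : Finset {i // c i ≠ 0},
      ((-1 : ZMod 2) ^ T.card) • ∏ i, cl 2 (tau 𝓕 c (RR c T) i) := by
  classical
  rw [← Fintype.prod_subtype_mul_prod_subtype (fun i => c i ≠ 0) (fun i => zz 𝓕 (c i))]
  have e1 : ∏ i : {i // c i ≠ 0}, zz 𝓕 (c i.1) =
      ∑ T : Finset {i // c i ≠ 0}, ((∏ i ∈ T, (-cl 2 ((J 2)^[c i.1] (xi : TY 𝓕)))) *
        ∏ i ∈ univ \ T, cl 2 (xi : TY 𝓕)) := by
    rw [← Finset.powerset_univ, ← Finset.prod_add]
    refine Finset.prod_congr rfl fun i _ => ?_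
    unfold zz
    rw [if_neg i.2]
    ring
  have e2 : ∏ i : {i // ¬ c i ≠ 0}, zz 𝓕 (c i.1) = ∏ _i : {i // ¬ c i ≠ 0}, cl 2 (xi : TY 𝓕) := by
    refine Finset.prod_congr rfl fun i _ => ?_
    unfold zz
    rw [if_pos (not_not.1 i.2)]
  rw [e1, e2, Finset.sum_mul]
  refine Finset.sum_congr rfl fun T _ => ?_
  rw [← Fintype.prod_subtype_mul_prod_subtype (fun i => c i ≠ 0)
    (fun i => cl 2 (tau 𝓕 c (RR c T) i))]
  have e3 : ∏ i : {i // c i ≠ 0}, cl 2 (tau 𝓕 c (RR c T) i.1) =
      (∏ i ∈ T, cl 2 ((J 2)^[c i.1] (xi : TY 𝓕))) * ∏ i ∈ univ \ T, cl 2 (xi : TY 𝓕) := by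
    rw [← Finset.prod_mul_prod_compl T, ← Finset.compl_eq_univ_sdiff]
    congr 1
    · refine Finset.prod_congr rfl fun i hi => ?_
      unfold tau
      rw [if_pos ⟨i.2, hi⟩]
    · refine Finset.prod_congr rfl fun i hi => ?_
      unfold tau
      rw [if_neg]
      rintro ⟨_, h⟩
      exact (Finset.mem_compl.1 hi) h
  have e4 : ∏ i : {i // ¬ c i ≠ 0}, cl 2 (tau 𝓕 c (RR c T) i.1) =
      ∏ _i : {i // ¬ c i ≠ 0}, cl 2 (xi : TY 𝓕) := by
    refine Finset.prod_congr rfl fun i _ => ?_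
    unfold tau
    rw [if_neg]
    rintro ⟨h, _⟩
    exact i.2 h
  have e5 : ∏ i ∈ T, (-cl 2 ((J 2)^[c i.1] (xi : TY 𝓕))) =
      (-1) ^ T.card * ∏ i ∈ T, cl 2 ((J 2)^[c i.1] (xi : TY 𝓕)) := by
    rw [← Finset.prod_const, ← Finset.prod_mul_distrib]
    exact Finset.prod_congr rfl fun i _ => by ring
  rw [e3, e4, e5]
  refine Eq.trans ?_ (smul_pow_neg (A := AA 𝓕 2) T.card _).symm
  ring

theorem t : S_count := by
  intro B _ _ c 𝓕
  classical
  rw [prod_zz, map_sum, Int.cast_sum]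
  rw [← (Finset.sumEquiv (α := EV B) (β := {i // c i ≠ 0})).symm.toEquiv.sum_comp,
    Fintype.sum_prod_type, Finset.sum_comm]
  refine Finset.sum_congr rfl fun T _ => ?_
  rw [map_smul, Lb_prod, smul_eq_mul]
  unfold NN
  rw [Finset.mul_sum]
  refine Finset.sum_congr rfl fun S _ => ?_
  have hl : (S.disjSum T).toLeft = S := Finset.toLeft_disjSum
  have hr : (S.disjSum T).toRight = T := Finset.toRight_disjSum
  change (((if ¬ HH 𝓕 (gr c (toG (S.disjSum T).toLeft)
        (fun i => ∃ h : c i ≠ 0, (⟨i, h⟩ : {i // c i ≠ 0}) ∈ (S.disjSum T).toRight))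
      then (-1 : ℤ) ^ (S.disjSum T).card else 0 : ℤ)) : ZMod 2) = _
  rw [card_disjSum]
  have hb : HH 𝓕 (gr c (toG (S.disjSum T).toLeft)
        (fun i => ∃ h : c i ≠ 0, (⟨i, h⟩ : {i // c i ≠ 0}) ∈ (S.disjSum T).toRight)) ↔
      Bad (tau 𝓕 c (RR c T)) (toG S) := by
    rw [bridge, hl, hr]
    rfl
  unfold ind
  by_cases h : Bad (tau 𝓕 c (RR c T)) (toG S)
  · rw [if_neg (not_not.2 (hb.2 h)), if_pos h]
    simp
  · rw [if_pos (fun h' => h (hb.1 h')), if_neg h]
    push_cast
    ring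

end Pool.Agent.Y705.EV
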